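import Pool.Agent.H332.HT.Defs

set_option autoImplicit false

namespace Pool.Agent.H231.HT

open Pool.Agent.H332.HT

theorem good_mono {K : Set V3} {q : ℝ → V2} {a b a' b' : ℝ} (h : Good K q a b) (ha : a ≤ a')
    (hb : b' ≤ b) : Good K q a' b' := by
  obtain ⟨d, hd⟩ := h
  exact ⟨d, fun t h1 h2 => hd t (ha.trans h1) (h2.trans hb)⟩

/-- NF: bodies without a full fibre over the boundary of the shadow. -/
theorem nf (hP : S_P) (hpar : S_par) (hgop : S_gop) (hgpt : S_gpt) (h3 : S_three) (hc2 : S_ch2)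
    (hc3 : S_ch3) (hA : S_A) (hB : S_B) : S_NF := by
  intro K hK hfull
  by_contra hn
  obtain ⟨hcpt, -, -, h0, -, hsub, -⟩ := hP K hK
  obtain ⟨q, hq⟩ := hpar K hK
  have hnf : ∀ t, ¬ Full K (q t) := fun t => hfull (q t) (hq.mem t) (hq.nint t)
  have hopen : IsOpen (IP K) := isOpen_interior
  -- an extreme point
  obtain ⟨e, he⟩ := hcpt.extremePoints_nonempty (E := V2) ⟨0, hsub 0 h0⟩
  have heN : e ∉ IP K := by
    intro hI
    have hcont : Continuous fun s : ℝ => e + s • ((1, 0) : V2) := by fun_prop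
    have hnb : ∀ᶠ s in nhds (0 : ℝ), e + s • ((1, 0) : V2) ∈ IP K := by
      refine hcont.continuousAt.eventually ?_
      simpa using hopen.mem_nhds hI
    obtain ⟨ε, hε, hball⟩ := Metric.eventually_nhds_iff.1 hnb
    have hp1 : e + (ε / 2) • ((1, 0) : V2) ∈ P K := hsub _ (hball (by
      rw [Real.dist_eq, sub_zero, abs_of_pos (by linarith)]; linarith))
    have hp2 : e + (-(ε / 2)) • ((1, 0) : V2) ∈ P K := hsub _ (hball (by
      rw [Real.dist_eq, sub_zero, abs_neg, abs_of_pos (by linarith)]; linarith))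
    have hseg : e ∈ openSegment ℝ (e + (ε / 2) • ((1, 0) : V2)) (e + (-(ε / 2)) • ((1, 0) : V2)) := by
      refine ⟨1 / 2, 1 / 2, by norm_num, by norm_num, by norm_num, ?_⟩
      ext
      · simp; ring
      · simp; ring
    have h4 := (mem_extremePoints.1 he).2 _ hp1 _ hp2 hseg
    have h5 := congrArg Prod.fst h4.1
    simp at h5
    linarith
  obtain ⟨a₀, ha₀⟩ := hq.surj e he.1 heN
  rw [← ha₀] at he
  have hpi := Real.pi_pos
  have hcq := hq.cont
  have hcf : Continuous fun t : ℝ => (1 / 2 : ℝ) • (q t - q a₀) := by fun_prop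
  set P1 : Set ℝ := {t | a₀ < t ∧ t < a₀ + Real.pi ∧ (1 / 2 : ℝ) • (q t - q a₀) ∈ IP K} with hP1
  have hbdd : BddAbove P1 := ⟨a₀ + Real.pi, fun t ht => ht.2.1.le⟩
  obtain ⟨t₁, ht₁⟩ : ∃ t₁, t₁ ∈ P1 := by
    have hnb : ∀ᶠ t in nhds a₀, (1 / 2 : ℝ) • (q t - q a₀) ∈ IP K := by
      refine hcf.continuousAt.eventually ?_
      simpa using hopen.mem_nhds h0
    obtain ⟨ε, hε, hball⟩ := Metric.eventually_nhds_iff.1 hnb
    refine ⟨a₀ + min (ε / 2) (Real.pi / 2), ?_, ?_, hball ?_⟩
    · have : 0 < min (ε / 2) (Real.pi / 2) := lt_min (by linarith) (by linarith)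
      linarith
    · have := min_le_right (ε / 2) (Real.pi / 2)
      linarith
    · have h1 : 0 < min (ε / 2) (Real.pi / 2) := lt_min (by linarith) (by linarith)
      have h2 := min_le_left (ε / 2) (Real.pi / 2)
      rw [Real.dist_eq, add_sub_cancel_left, abs_of_pos h1]
      linarith
  set w := sSup P1 with hw
  have hw1 : a₀ < w := lt_of_lt_of_le ht₁.1 (le_csSup hbdd ht₁)
  have hw2 : w ≤ a₀ + Real.pi := csSup_le ⟨t₁, ht₁⟩ fun t ht => ht.2.1.le
  have hin : ∀ s, a₀ < s → s < w → s ∈ P1 := by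
    intro s hs1 hs2
    obtain ⟨t, ht, hst⟩ := exists_lt_of_lt_csSup ⟨t₁, ht₁⟩ hs2
    refine ⟨hs1, by linarith, ?_⟩
    exact (hc2 K hK q hq a₀ s t).1 hs1 hst.le ht.2.1 ht.2.2
  have hgood : ∀ s, s ∈ P1 → Good K q a₀ s := fun s hs =>
    hA K hK q hq hnf hn a₀ he s hs.1 hs.2.1 hs.2.2
  obtain ⟨ε, hε, hG⟩ := hgop K hK q hq w w le_rfl (hgpt K hK q hq w (hnf w))
  have hm1 : a₀ ≤ max a₀ (w - ε) := le_max_left _ _
  have hm2 : w - ε ≤ max a₀ (w - ε) := le_max_right _ _
  have hm3 : max a₀ (w - ε) < w := max_lt hw1 (by linarith)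
  set m := max a₀ (w - ε) with hm
  rcases hw2.eq_or_lt with hcase | hcase
  · -- w = a₀ + π
    refine hn (h3 K hK q hq a₀ (m + (w - m) / 3) (m + 2 * (w - m) / 3) (by linarith) (by linarith)
      (by linarith) (hgood _ (hin _ (by linarith) (by linarith))) ?_ ?_)
    · exact good_mono hG (by linarith) (by linarith)
    · exact good_mono hG (by linarith) (by linarith)
  · -- w < a₀ + π
    have hwn : w ∉ P1 := by
      intro hwP
      have hnb : ∀ᶠ t in nhds w, (1 / 2 : ℝ) • (q t - q a₀) ∈ IP K :=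
        hcf.continuousAt.eventually (hopen.mem_nhds hwP.2.2)
      obtain ⟨ε', hε', hball⟩ := Metric.eventually_nhds_iff.1 hnb
      have h1 : 0 < min (ε' / 2) ((a₀ + Real.pi - w) / 2) := lt_min (by linarith) (by linarith)
      have h2 := min_le_left (ε' / 2) ((a₀ + Real.pi - w) / 2)
      have h4 := min_le_right (ε' / 2) ((a₀ + Real.pi - w) / 2)
      have hmem : w + min (ε' / 2) ((a₀ + Real.pi - w) / 2) ∈ P1 := by
        refine ⟨by linarith, by linarith, hball ?_⟩
        rw [Real.dist_eq, add_sub_cancel_left, abs_of_pos h1]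
        linarith
      have := le_csSup hbdd hmem
      linarith
    have hwn' : (1 / 2 : ℝ) • (q w - q a₀) ∉ IP K := fun h => hwn ⟨hw1, hcase, h⟩
    have h1 : 0 < min (ε / 2) ((a₀ + Real.pi - w) / 2) := lt_min (by linarith) (by linarith)
    have h2 := min_le_left (ε / 2) ((a₀ + Real.pi - w) / 2)
    have h4 := min_le_right (ε / 2) ((a₀ + Real.pi - w) / 2)
    set c := w + min (ε / 2) ((a₀ + Real.pi - w) / 2) with hc
    have hcI := hc3 K hK q hq a₀ w c hw1 (by linarith) (by linarith) hwn'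
    refine hn (h3 K hK q hq a₀ (m + (w - m) / 2) c (by linarith) (by linarith) (by linarith)
      (hgood _ (hin _ (by linarith) (by linarith))) ?_ ?_)
    · exact good_mono hG (by linarith) (by linarith)
    · exact hB K hK q hq hnf hn a₀ he c (by linarith) (by linarith) hcI

end Pool.Agent.H231.HT
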